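import Pool.Agent.W263.BSD.Final
import Pool.Agent.TH942.RZ.Curve

/-!
# Riesz means of real order: from order `k > 0` to a larger integral order
-/

set_option autoImplicit false

open MeasureTheory Filter Topology Set Classical
open Pool.Agent.W263.BSD
open Pool.Agent.TH942.RZ (rz)

namespace Pool.Agent.Y686.RM

variable {a b : ℤ}

/-- the beta integral -/
noncomputable def bt (k j : ℝ) : ℝ := ∫ t in (0 : ℝ)..1, t ^ k * (1 - t) ^ j

theorem bt_pos {k j : ℝ} (hk : 0 ≤ k) (hj : 0 ≤ j) : 0 < bt k j := by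
  unfold bt
  refine intervalIntegral.intervalIntegral_pos_of_pos_on ?_ ?_ one_pos
  · refine Continuous.intervalIntegrable ?_ _ _
    exact (Real.continuous_rpow_const hk).mul
      ((Real.continuous_rpow_const hj).comp (continuous_const.sub continuous_id))
  · intro t ht
    exact mul_pos (Real.rpow_pos_of_pos ht.1 k) (Real.rpow_pos_of_pos (by linarith [ht.2]) j)

theorem beta_scaled {k j A : ℝ} (hA : 0 < A) :
    ∫ t in (0 : ℝ)..A, t ^ k * (A - t) ^ j = A ^ (k + j + 1) * bt k j := by
  have h1 := intervalIntegral.integral_comp_mul_left (a := 0) (b := 1)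
    (fun t => t ^ k * (A - t) ^ j) hA.ne'
  rw [mul_zero, mul_one, smul_eq_mul] at h1
  have h2 : ∫ t in (0 : ℝ)..1, (A * t) ^ k * (A - A * t) ^ j = A ^ (k + j) * bt k j := by
    unfold bt
    rw [← intervalIntegral.integral_const_mul]
    refine intervalIntegral.integral_congr fun t ht => ?_
    rw [uIcc_of_le zero_le_one] at ht
    rw [show A - A * t = A * (1 - t) by ring, Real.mul_rpow hA.le ht.1,
      Real.mul_rpow hA.le (by linarith [ht.2]), Real.rpow_add hA]
    ring
  have h3 : ∫ t in (0 : ℝ)..A, t ^ k * (A - t) ^ j =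
      A * ∫ t in (0 : ℝ)..1, (A * t) ^ k * (A - A * t) ^ j := by
    rw [h1]
    field_simp
  rw [h3, h2, Real.rpow_add_one hA.ne']
  ring

theorem frac_int {k j T l : ℝ} (hk : 0 < k) (hj : 0 ≤ j) (hl0 : 0 ≤ l) (hl : l ≤ T) :
    ∫ t in (0 : ℝ)..T, (max (t - l) 0) ^ k * (T - t) ^ j = (T - l) ^ (k + j + 1) * bt k j := by
  have hc : Continuous fun t : ℝ => (max (t - l) 0) ^ k * (T - t) ^ j :=
    ((Real.continuous_rpow_const hk.le).comp
      ((continuous_id.sub continuous_const).max continuous_const)).mul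
      ((Real.continuous_rpow_const hj).comp (continuous_const.sub continuous_id))
  rw [← intervalIntegral.integral_add_adjacent_intervals (hc.intervalIntegrable 0 l)
    (hc.intervalIntegrable l T)]
  have h1 : ∫ t in (0 : ℝ)..l, (max (t - l) 0) ^ k * (T - t) ^ j = 0 := by
    rw [intervalIntegral.integral_congr (g := fun _ => (0 : ℝ))]
    · simp
    · intro t ht
      rw [uIcc_of_le hl0] at ht
      simp only
      rw [max_eq_right (by linarith [ht.2]), Real.zero_rpow hk.ne', zero_mul]
  rw [h1, zero_add]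
  rcases hl.eq_or_lt with h2 | h2
  · rw [h2, intervalIntegral.integral_same, sub_self, Real.zero_rpow (by linarith), zero_mul]
  · rw [← beta_scaled (k := k) (j := j) (show 0 < T - l by linarith)]
    have h3 := intervalIntegral.integral_comp_sub_right (a := l) (b := T)
      (fun t => t ^ k * (T - l - t) ^ j) l
    rw [sub_self] at h3
    rw [← h3]
    refine intervalIntegral.integral_congr fun t ht => ?_
    rw [uIcc_of_le hl] at ht
    rw [max_eq_left (by linarith [ht.1])]
    congr 2
    ring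

/-- the terms `log (N_p / p)` -/
noncomputable def tm (a b : ℤ) (p : ℕ) : ℝ := Real.log (((pointCount a b p : ℝ) + 1) / p)

/-- `t^k R_k(e^t)` as a sum over a fixed set -/
theorem rz_sum {k T t : ℝ} (hk : 0 < k) (ht0 : 0 < t) (ht : t ≤ T) :
    t ^ k * rz a b k (Real.exp t) =
      ∑ p ∈ (Finset.range (⌊Real.exp T⌋₊ + 1)).filter (GoodPrime a b),
        (max (t - Real.log p) 0) ^ k * tm a b p := by
  unfold Pool.Agent.TH942.RZ.rz
  rw [Finset.mul_sum, Real.log_exp]
  have hsub : (Finset.range (⌊Real.exp t⌋₊ + 1)).filter (GoodPrime a b) ⊆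
      (Finset.range (⌊Real.exp T⌋₊ + 1)).filter (GoodPrime a b) := by
    refine Finset.filter_subset_filter _ ?_
    intro p hp
    rw [Finset.mem_range] at hp ⊢
    have : ⌊Real.exp t⌋₊ ≤ ⌊Real.exp T⌋₊ := Nat.floor_le_floor (Real.exp_le_exp.2 ht)
    omega
  rw [← Finset.sum_subset hsub (f := fun p : ℕ => (max (t - Real.log p) 0) ^ k * tm a b p)]
  · refine Finset.sum_congr rfl fun p hp => ?_
    obtain ⟨h1, h2⟩ := Finset.mem_filter.1 hp
    have hp0 : (0 : ℝ) < p := by exact_mod_cast h2.1.pos
    have h3 : Real.log p ≤ t := by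
      rw [Real.log_le_iff_le_exp hp0]
      rw [Finset.mem_range, Nat.lt_succ_iff, Nat.le_floor_iff (Real.exp_pos t).le] at h1
      exact h1
    have h4 : t ^ k * (1 - Real.log p / t) ^ k = (max (t - Real.log p) 0) ^ k := by
      rw [max_eq_left (by linarith), ← Real.mul_rpow ht0.le]
      · congr 1
        field_simp
      · rw [sub_nonneg, div_le_one ht0]
        exact h3
    rw [← mul_assoc, h4]
    rfl
  · intro p hp hp2
    obtain ⟨h1, h2⟩ := Finset.mem_filter.1 hp
    have hp0 : (0 : ℝ) < p := by exact_mod_cast h2.1.pos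
    have h3 : t < Real.log p := by
      rw [Real.lt_log_iff_exp_lt hp0]
      by_contra hneg
      push Not at hneg
      apply hp2
      rw [Finset.mem_filter]
      refine ⟨?_, h2⟩
      rw [Finset.mem_range, Nat.lt_succ_iff, Nat.le_floor_iff (Real.exp_pos t).le]
      exact hneg
    rw [max_eq_right (by linarith), Real.zero_rpow hk.ne', zero_mul]

/-- **Fractional integration.** -/
theorem frac (a b : ℤ) {k T : ℝ} {n : ℕ} (hk : 0 < k) (hn : k + 1 ≤ n) (hT : 0 < T) :
    ∫ t in (0 : ℝ)..T, (t ^ k * rz a b k (Real.exp t)) * (T - t) ^ ((n : ℝ) - k - 1) =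
      T ^ n * rieszMean a b n (Real.exp T) * bt k (n - k - 1) := by
  have hj : 0 ≤ (n : ℝ) - k - 1 := by linarith
  have h1 : ∫ t in (0 : ℝ)..T, (t ^ k * rz a b k (Real.exp t)) * (T - t) ^ ((n : ℝ) - k - 1) =
      ∫ t in (0 : ℝ)..T, ∑ p ∈ (Finset.range (⌊Real.exp T⌋₊ + 1)).filter (GoodPrime a b),
        ((max (t - Real.log p) 0) ^ k * (T - t) ^ ((n : ℝ) - k - 1)) * tm a b p := by
    refine intervalIntegral.integral_congr_ae ?_
    refine Eventually.of_forall fun t ht => ?_
    rw [uIoc_of_le hT.le] at ht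
    rw [rz_sum hk ht.1 ht.2, Finset.sum_mul]
    refine Finset.sum_congr rfl fun p _ => ?_
    ring
  rw [h1, intervalIntegral.integral_finsetSum]
  · unfold rieszMean
    rw [Finset.mul_sum, Finset.sum_mul, Real.log_exp]
    refine Finset.sum_congr rfl fun p hp => ?_
    obtain ⟨h1, h2⟩ := Finset.mem_filter.1 hp
    have hp0 : (0 : ℝ) < p := by exact_mod_cast h2.1.pos
    have h3 : Real.log p ≤ T := by
      rw [Real.log_le_iff_le_exp hp0]
      rw [Finset.mem_range, Nat.lt_succ_iff, Nat.le_floor_iff (Real.exp_pos T).le] at h1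
      exact h1
    have h4 : 0 ≤ Real.log (p : ℝ) := Real.log_natCast_nonneg p
    rw [intervalIntegral.integral_mul_const, frac_int hk hj h4 h3]
    have e1 : (T - Real.log p) ^ (k + ((n : ℝ) - k - 1) + 1) = T ^ n * (1 - Real.log p / T) ^ n := by
      rw [show k + ((n : ℝ) - k - 1) + 1 = (n : ℝ) by ring, Real.rpow_natCast, ← mul_pow]
      congr 1
      field_simp
    rw [e1]
    unfold tm
    ring
  · intro p _
    refine Continuous.intervalIntegrable ?_ _ _
    exact (((Real.continuous_rpow_const hk.le).comp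
      ((continuous_id.sub continuous_const).max continuous_const)).mul
      ((Real.continuous_rpow_const hj).comp (continuous_const.sub continuous_id))).mul
        continuous_const

/-- an upper bound for `R_k` -/
theorem rz_abs (a b : ℤ) {k : ℝ} (hk : 0 < k) (U : ℝ) : ∃ M : ℝ, 0 ≤ M ∧ ∀ t : ℝ, 0 < t → t ≤ U →
    rz a b k (Real.exp t) ≤ M := by
  refine ⟨∑ p ∈ (Finset.range (⌊Real.exp U⌋₊ + 1)).filter (GoodPrime a b), |tm a b p|,
    Finset.sum_nonneg fun _ _ => abs_nonneg _, fun t ht htU => ?_⟩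
  unfold Pool.Agent.TH942.RZ.rz
  rw [Real.log_exp]
  have hsub : (Finset.range (⌊Real.exp t⌋₊ + 1)).filter (GoodPrime a b) ⊆
      (Finset.range (⌊Real.exp U⌋₊ + 1)).filter (GoodPrime a b) := by
    refine Finset.filter_subset_filter _ ?_
    intro p hp
    rw [Finset.mem_range] at hp ⊢
    have : ⌊Real.exp t⌋₊ ≤ ⌊Real.exp U⌋₊ := Nat.floor_le_floor (Real.exp_le_exp.2 htU)
    omega
  refine le_trans ?_ (Finset.sum_le_sum_of_subset_of_nonneg hsub fun _ _ _ => abs_nonneg _)
  refine Finset.sum_le_sum fun p hp => ?_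
  obtain ⟨h1, h2⟩ := Finset.mem_filter.1 hp
  have hp0 : (0 : ℝ) < p := by exact_mod_cast h2.1.pos
  have h3 : Real.log p ≤ t := by
    rw [Real.log_le_iff_le_exp hp0]
    rw [Finset.mem_range, Nat.lt_succ_iff, Nat.le_floor_iff (Real.exp_pos t).le] at h1
    exact h1
  have h4 : 0 ≤ Real.log (p : ℝ) := Real.log_natCast_nonneg p
  have h5 : 0 ≤ 1 - Real.log p / t := by
    rw [sub_nonneg, div_le_one ht]
    exact h3
  have h6 : (1 - Real.log p / t) ^ k ≤ 1 := by
    refine Real.rpow_le_one h5 ?_ hk.le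
    have : 0 ≤ Real.log (p : ℝ) / t := by positivity
    linarith
  have h7 : 0 ≤ (1 - Real.log p / t) ^ k := Real.rpow_nonneg h5 k
  calc (1 - Real.log p / t) ^ k * Real.log (((pointCount a b p : ℝ) + 1) / p) ≤
      (1 - Real.log p / t) ^ k * |tm a b p| := mul_le_mul_of_nonneg_left (le_abs_self _) h7
    _ ≤ 1 * |tm a b p| := mul_le_mul_of_nonneg_right h6 (abs_nonneg _)
    _ = |tm a b p| := one_mul _

/-- a bound for the mean of order `k` gives one for the mean of order `n` -/
theorem up_int {k : ℝ} {n : ℕ} (hk : 0 < k) (hn : k + 1 ≤ n) {ε : ℝ} (hε : 0 < ε)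
    (h : ∀ᶠ x : ℝ in atTop, rz a b k x ≤ x ^ ε) :
    ∀ᶠ x : ℝ in atTop, rieszMean a b n x ≤ x ^ (2 * ε) := by
  obtain ⟨X, hX⟩ := eventually_atTop.1 h
  obtain ⟨M, hM0, hM⟩ := rz_abs a b hk (Real.log (max X 1))
  have hj : 0 ≤ (n : ℝ) - k - 1 := by linarith
  have hbt := bt_pos hk.le hj
  have hall : ∀ t : ℝ, 0 < t → rz a b k (Real.exp t) ≤ Real.exp (ε * t) + M := by
    intro t ht
    rcases le_or_gt t (Real.log (max X 1)) with h1 | h1
    · have := hM t ht h1
      have := Real.exp_pos (ε * t)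
      linarith
    · have h2 : max X 1 < Real.exp t := by
        rw [← Real.log_lt_iff_lt_exp (lt_of_lt_of_le one_pos (le_max_right _ _))]
        exact h1
      have h3 := hX (Real.exp t) ((le_max_left _ _).trans h2.le)
      rw [← Real.exp_mul, mul_comm t ε] at h3
      linarith
  have key : ∀ T : ℝ, 0 < T → rieszMean a b n (Real.exp T) ≤ Real.exp (ε * T) + M := by
    intro T hT
    have hTn : 0 < T ^ n := pow_pos hT n
    have h1 := frac a b hk hn hT
    have hint1 : IntervalIntegrable (fun t => (t ^ k * rz a b k (Real.exp t)) *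
        (T - t) ^ ((n : ℝ) - k - 1)) volume 0 T := by
      have hc : IntervalIntegrable (fun t => ∑ p ∈ (Finset.range (⌊Real.exp T⌋₊ + 1)).filter
          (GoodPrime a b), ((max (t - Real.log p) 0) ^ k * (T - t) ^ ((n : ℝ) - k - 1)) * tm a b p)
          volume 0 T := by
        refine Continuous.intervalIntegrable ?_ _ _
        refine continuous_finsetSum _ fun p _ => ?_
        exact (((Real.continuous_rpow_const hk.le).comp
          ((continuous_id.sub continuous_const).max continuous_const)).mul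
          ((Real.continuous_rpow_const hj).comp (continuous_const.sub continuous_id))).mul
            continuous_const
      refine hc.congr fun t ht => ?_
      rw [uIoc_of_le hT.le] at ht
      rw [rz_sum hk ht.1 ht.2, Finset.sum_mul]
      refine Finset.sum_congr rfl fun p _ => ?_
      ring
    have hint2 : IntervalIntegrable (fun t : ℝ => (t ^ k * (Real.exp (ε * T) + M)) *
        (T - t) ^ ((n : ℝ) - k - 1)) volume 0 T := by
      refine Continuous.intervalIntegrable ?_ _ _
      exact ((Real.continuous_rpow_const hk.le).mul continuous_const).mul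
        ((Real.continuous_rpow_const hj).comp (continuous_const.sub continuous_id))
    have h2 : ∫ t in (0 : ℝ)..T, (t ^ k * rz a b k (Real.exp t)) * (T - t) ^ ((n : ℝ) - k - 1) ≤
        ∫ t in (0 : ℝ)..T, (t ^ k * (Real.exp (ε * T) + M)) * (T - t) ^ ((n : ℝ) - k - 1) := by
      refine intervalIntegral.integral_mono_on_of_le_Ioo hT.le hint1 hint2 fun t ht => ?_
      refine mul_le_mul_of_nonneg_right ?_ (Real.rpow_nonneg (by linarith [ht.2]) _)
      refine mul_le_mul_of_nonneg_left ?_ (Real.rpow_nonneg ht.1.le _)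
      refine (hall t ht.1).trans ?_
      have := Real.exp_le_exp.2 (mul_le_mul_of_nonneg_left ht.2.le hε.le)
      linarith
    have h3 : ∫ t in (0 : ℝ)..T, (t ^ k * (Real.exp (ε * T) + M)) * (T - t) ^ ((n : ℝ) - k - 1) =
        (Real.exp (ε * T) + M) * (T ^ n * bt k (n - k - 1)) := by
      have e1 : (fun t : ℝ => (t ^ k * (Real.exp (ε * T) + M)) * (T - t) ^ ((n : ℝ) - k - 1)) =
          fun t : ℝ => (Real.exp (ε * T) + M) * (t ^ k * (T - t) ^ ((n : ℝ) - k - 1)) := by
        funext t; ring
      rw [e1, intervalIntegral.integral_const_mul, beta_scaled hT,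
        show k + ((n : ℝ) - k - 1) + 1 = (n : ℝ) by ring, Real.rpow_natCast]
    rw [h1, h3] at h2
    have h4 : T ^ n * bt k (n - k - 1) * rieszMean a b n (Real.exp T) ≤
        T ^ n * bt k (n - k - 1) * (Real.exp (ε * T) + M) := by linarith
    exact le_of_mul_le_mul_left h4 (by positivity)
  have h5 : ∀ᶠ T : ℝ in atTop, Real.exp (ε * T) + M ≤ Real.exp (2 * ε * T) := by
    have h6 : Tendsto (fun T : ℝ => Real.exp (ε * T)) atTop atTop :=
      Real.tendsto_exp_atTop.comp (tendsto_id.const_mul_atTop hε)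
    filter_upwards [h6.eventually_ge_atTop (M + 2)] with T hT
    have e1 : Real.exp (2 * ε * T) = Real.exp (ε * T) * Real.exp (ε * T) := by
      rw [← Real.exp_add]; ring_nf
    rw [e1]
    nlinarith
  filter_upwards [Real.tendsto_log_atTop.eventually h5, eventually_gt_atTop 1] with x hx hx1
  have hx0 : 0 < x := by linarith
  have h6 := key (Real.log x) (Real.log_pos hx1)
  rw [Real.exp_log hx0] at h6
  refine h6.trans (hx.trans (le_of_eq ?_))
  rw [Real.rpow_def_of_pos hx0]
  ring_nf

/-- **A one-sided subexponential bound for one Riesz mean of positive order excludes zeros.** -/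
theorem no_zeros_rz {F : ℂ → ℂ} (hF : IsLSeries a b F) {k : ℝ} (hk : 0 < k)
    (h : ∀ ε : ℝ, 0 < ε → ∀ᶠ x : ℝ in atTop, rz a b k x ≤ x ^ ε) {s : ℂ} (hs : 1 < s.re) :
    F s ≠ 0 := by
  obtain ⟨n, hn⟩ := exists_nat_ge (k + 1)
  refine no_zeros hF n (fun ε hε => ?_) hs
  have := up_int hk hn (show 0 < ε / 2 by positivity) (h (ε / 2) (by positivity))
  simpa only [mul_div_cancel₀ ε (two_ne_zero)] using this

end Pool.Agent.Y686.RM
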