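import Pool.Agent.Y686.RM.Frac
import Pool.Agent.Y686.TW.Final

/-!
# Riesz means of every positive real order: the equivalences
-/

set_option autoImplicit false

open MeasureTheory Filter Topology Set Classical
open Pool.Agent.W263.BSD Pool.Agent.Y686.TW
open Pool.Agent.TH942.RZ (rz rzw rz_eq curve_riesz)
open Pool.Agent.TH942.LS (lm cE)
open Pool.Agent.TH942.LS

namespace Pool.Agent.Y686.RM

variable {a b : ℤ} {F : ℂ → ℂ} {r : ℕ}

/-- `Γ'(k+1) / Γ(k+1) + γ`, the harmonic number of order `k` -/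
noncomputable def harm (k : ℝ) : ℝ :=
  deriv Real.Gamma (k + 1) / Real.Gamma (k + 1) + Real.eulerMascheroniConstant

/-- **The limit of the Riesz means.** -/
theorem rz_lim (H : Full a b F r) (hz : ∀ s : ℂ, 1 < s.re → F s ≠ 0) {k : ℝ} (hk : 0 < k) :
    Tendsto (fun x : ℝ => rz a b k x - r * Real.log (Real.log x)) atTop
      (𝓝 (Real.log (TC F r) - r * harm k)) := by
  obtain ⟨κ, h1, h2⟩ := curve_riesz H.disc H.rs H.tx.gr H.lser H.ord hz hk
  have hT := TC_pos H.lser H.ord
  have h3 : κ = Real.log (TC F r) - r * harm k := by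
    rw [lead_eq H.lser (fun s hs => hz s (by rw [Complex.ofReal_re]; exact hs)) H.ord] at h2
    have h4 : Real.exp κ * (√2 * Real.exp (r * Real.eulerMascheroniConstant) / TC F r) =
        √2 * Real.exp (-(r * (deriv Real.Gamma (k + 1) / Real.Gamma (k + 1)))) := by
      exact_mod_cast h2
    have h5 : Real.exp κ = TC F r * Real.exp (-(r * harm k)) := by
      have h6 : (0 : ℝ) < √2 := by positivity
      have h7 := Real.exp_pos (r * Real.eulerMascheroniConstant)
      have h8 : Real.exp (-(r * (deriv Real.Gamma (k + 1) / Real.Gamma (k + 1)))) =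
          Real.exp (-(r * harm k)) * Real.exp (r * Real.eulerMascheroniConstant) := by
        rw [← Real.exp_add]
        unfold harm
        congr 1
        ring
      rw [h8] at h4
      field_simp at h4
      nlinarith [h4]
    rw [← Real.log_exp κ, h5, Real.log_mul hT.ne' (Real.exp_pos _).ne', Real.log_exp]
    ring
  rw [← h3]
  have h9 := h1.comp Real.tendsto_log_atTop
  refine h9.congr' ?_
  filter_upwards [eventually_gt_atTop 1] with x hx
  simp only [Function.comp_apply]
  rw [rz_eq hk hx]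

theorem exp_lim (H : Full a b F r) (hz : ∀ s : ℂ, 1 < s.re → F s ≠ 0) {k : ℝ} (hk : 0 < k) :
    Tendsto (fun x : ℝ => Real.exp (rz a b k x) / Real.log x ^ r) atTop
      (𝓝 (TC F r * Real.exp (-(r * harm k)))) := by
  have h1 := (Real.continuous_exp.tendsto _).comp (rz_lim H hz hk)
  rw [sub_eq_add_neg, Real.exp_add, Real.exp_log (TC_pos H.lser H.ord)] at h1
  refine h1.congr' ?_
  filter_upwards [eventually_gt_atTop 1] with x hx
  have h2 : 0 < Real.log x := Real.log_pos hx
  simp only [Function.comp_apply]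
  rw [Real.exp_sub, ← Real.log_pow, Real.exp_log (pow_pos h2 r)]

/-- `K log log x + K` is subexponential -/
theorem small_of_loglog {g : ℝ → ℝ} {K : ℝ} (h : ∀ᶠ x : ℝ in atTop, g x ≤ K * Real.log (Real.log x) + K)
    (ε : ℝ) (hε : 0 < ε) : ∀ᶠ x : ℝ in atTop, g x ≤ x ^ ε := by
  have h1 : Tendsto (fun x : ℝ => x ^ ε) atTop atTop := tendsto_rpow_atTop hε
  have h2 := (isLittleO_log_rpow_atTop hε).bound
    (show (0 : ℝ) < 1 / (2 * (|K| + 1)) by positivity)
  filter_upwards [h, h2, h1.eventually_ge_atTop (2 * |K|), eventually_ge_atTop (Real.exp 1)] with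
    x h3 h4 h5 h6
  have hx : 0 < x := lt_of_lt_of_le (Real.exp_pos 1) h6
  have hl : 1 ≤ Real.log x := by
    rw [Real.le_log_iff_exp_le hx]; exact h6
  have hp : 0 < x ^ ε := Real.rpow_pos_of_pos hx ε
  rw [Real.norm_of_nonneg (by linarith), Real.norm_of_nonneg hp.le] at h4
  have hll : 0 ≤ Real.log (Real.log x) := Real.log_nonneg hl
  have hle : Real.log (Real.log x) ≤ Real.log x := Real.log_le_self (by linarith)
  have h7 : K * Real.log (Real.log x) ≤ |K| * Real.log x :=
    (mul_le_mul_of_nonneg_right (le_abs_self K) hll).trans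
      (mul_le_mul_of_nonneg_left hle (abs_nonneg K))
  have h8 : |K| * Real.log x ≤ |K| * (1 / (2 * (|K| + 1)) * x ^ ε) :=
    mul_le_mul_of_nonneg_left h4 (abs_nonneg K)
  have h9 : |K| * (1 / (2 * (|K| + 1)) * x ^ ε) ≤ x ^ ε / 2 := by
    have h10 : |K| / (|K| + 1) ≤ 1 := by
      rw [div_le_one (by positivity)]
      linarith
    have h11 : |K| * (1 / (2 * (|K| + 1)) * x ^ ε) = (|K| / (|K| + 1)) * (x ^ ε / 2) := by
      field_simp
    rw [h11]
    have : 0 ≤ x ^ ε / 2 := by positivity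
    nlinarith
  have h12 : K ≤ x ^ ε / 2 := by
    have := le_abs_self K
    linarith
  linarith

/-- from a limit of `R_k / log log x` -/
theorem small_of_ratio {g : ℝ → ℝ} {ρ : ℝ}
    (h : Tendsto (fun x : ℝ => g x / Real.log (Real.log x)) atTop (𝓝 ρ))
    (ε : ℝ) (hε : 0 < ε) : ∀ᶠ x : ℝ in atTop, g x ≤ x ^ ε := by
  refine small_of_loglog (K := |ρ| + 1) ?_ ε hε
  have h1 := h.eventually (gt_mem_nhds (show ρ < |ρ| + 1 by linarith [le_abs_self ρ]))
  have h2 : Tendsto (fun x : ℝ => Real.log (Real.log x)) atTop atTop :=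
    Real.tendsto_log_atTop.comp Real.tendsto_log_atTop
  filter_upwards [h1, h2.eventually_gt_atTop 0] with x h3 h4
  rw [div_lt_iff₀ h4] at h3
  have := abs_nonneg ρ
  linarith

/-- **Equivalences with the Riemann hypothesis.** -/
theorem tfae_zeros (H : Full a b F r) : List.TFAE [
    ∀ s : ℂ, 1 < s.re → F s ≠ 0,
    ∀ k : ℝ, 0 < k → Tendsto (fun x : ℝ => Real.exp (rz a b k x) / Real.log x ^ r) atTop
      (𝓝 (TC F r * Real.exp (-(r * harm k)))),
    ∃ k ρ C : ℝ, 0 < k ∧ C ≠ 0 ∧
      Tendsto (fun x : ℝ => Real.exp (rz a b k x) / Real.log x ^ ρ) atTop (𝓝 C),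
    ∃ k : ℝ, 0 < k ∧ ∀ ε : ℝ, 0 < ε → ∀ᶠ x : ℝ in atTop, rz a b k x ≤ x ^ ε] := by
  tfae_have 1 → 2 := fun hz k hk => exp_lim H hz hk
  tfae_have 2 → 3 := by
    intro h
    refine ⟨1, r, TC F r * Real.exp (-(r * harm 1)), one_pos,
      (mul_pos (TC_pos H.lser H.ord) (Real.exp_pos _)).ne', ?_⟩
    refine (h 1 one_pos).congr fun x => ?_
    rw [Real.rpow_natCast]
  tfae_have 3 → 4 := by
    rintro ⟨k, ρ, C, hk, hC, h⟩
    refine ⟨k, hk, small_of_loglog (K := |ρ| + |C| + 1) ?_⟩
    have h1 := h.eventually (gt_mem_nhds (show C < |C| + 1 by linarith [le_abs_self C]))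
    have h2 : Tendsto (fun x : ℝ => Real.log (Real.log x)) atTop atTop :=
      Real.tendsto_log_atTop.comp Real.tendsto_log_atTop
    filter_upwards [h1, h2.eventually_gt_atTop 0, eventually_gt_atTop 1] with x h3 h4 h5
    have h6 : 0 < Real.log x := Real.log_pos h5
    rw [div_lt_iff₀ (Real.rpow_pos_of_pos h6 ρ)] at h3
    have h7 : rz a b k x < Real.log ((|C| + 1) * Real.log x ^ ρ) := by
      rw [Real.lt_log_iff_exp_lt (by positivity)]
      exact h3
    rw [Real.log_mul (by positivity) (by positivity), Real.log_rpow h6] at h7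
    have h8 : Real.log (|C| + 1) ≤ |C| := by
      have := Real.log_le_sub_one_of_pos (show 0 < |C| + 1 by positivity)
      linarith
    have h9 : ρ * Real.log (Real.log x) ≤ |ρ| * Real.log (Real.log x) :=
      mul_le_mul_of_nonneg_right (le_abs_self ρ) h4.le
    have h10 : 0 ≤ (|C| + 1) * Real.log (Real.log x) := by positivity
    have h11 := abs_nonneg ρ
    nlinarith
  tfae_have 4 → 1 := by
    rintro ⟨k, hk, h⟩ s hs
    exact no_zeros_rz H.lser hk h hs
  tfae_finish

theorem ratio_lim {g : ℝ → ℝ} {ρ c : ℝ}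
    (h : Tendsto (fun x : ℝ => g x - ρ * Real.log (Real.log x)) atTop (𝓝 c)) :
    Tendsto (fun x : ℝ => g x / Real.log (Real.log x)) atTop (𝓝 ρ) := by
  have h2 : Tendsto (fun x : ℝ => Real.log (Real.log x)) atTop atTop :=
    Real.tendsto_log_atTop.comp Real.tendsto_log_atTop
  have h3 := (h.div_atTop h2).add_const ρ
  rw [zero_add] at h3
  refine h3.congr' ?_
  filter_upwards [h2.eventually_gt_atTop 0] with x hx
  field_simp
  ring

/-- **Equivalences with the Riemann hypothesis and a prescribed order.** -/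
theorem tfae_order (H : Full a b F r) (R : ℕ) : List.TFAE [
    (∀ s : ℂ, 1 < s.re → F s ≠ 0) ∧ r = R,
    0 < TC F R ∧ ∀ k : ℝ, 0 < k →
      Tendsto (fun x : ℝ => Real.exp (rz a b k x) / Real.log x ^ R) atTop
        (𝓝 (TC F R * Real.exp (-(R * harm k)))),
    ∃ k C : ℝ, 0 < k ∧ C ≠ 0 ∧
      Tendsto (fun x : ℝ => Real.exp (rz a b k x) / Real.log x ^ R) atTop (𝓝 C),
    ∃ k : ℝ, 0 < k ∧ Tendsto (fun x : ℝ => rz a b k x / Real.log (Real.log x)) atTop (𝓝 R)] := by
  tfae_have 1 → 2 := by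
    rintro ⟨hz, rfl⟩
    exact ⟨TC_pos H.lser H.ord, fun k hk => exp_lim H hz hk⟩
  tfae_have 2 → 3 := fun h =>
    ⟨1, _, one_pos, (mul_pos h.1 (Real.exp_pos _)).ne', h.2 1 one_pos⟩
  tfae_have 3 → 4 := by
    rintro ⟨k, C, hk, hC, h⟩
    refine ⟨k, hk, ?_⟩
    have h1 := (Real.continuousAt_log hC).tendsto.comp h
    refine ratio_lim (c := Real.log C) (h1.congr' ?_)
    filter_upwards [eventually_gt_atTop 1] with x hx
    have h6 : 0 < Real.log x := Real.log_pos hx
    simp only [Function.comp_apply]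
    rw [Real.log_div (Real.exp_pos _).ne' (pow_pos h6 R).ne', Real.log_exp, Real.log_pow]
  tfae_have 4 → 1 := by
    rintro ⟨k, hk, h⟩
    have hz : ∀ s : ℂ, 1 < s.re → F s ≠ 0 := fun s hs =>
      no_zeros_rz H.lser hk (small_of_ratio h) hs
    refine ⟨hz, ?_⟩
    have h1 := ratio_lim (rz_lim H hz hk)
    exact_mod_cast tendsto_nhds_unique h1 h
  tfae_finish

end Pool.Agent.Y686.RM
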